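import Pool.Agent.N563.LSP.Stm
import Pool.Agent.TH312.LS_ONE

/-! # Local smoothing for `p > 4`: the pieces in `L^4` (`S_L4B`) -/

set_option autoImplicit false

open MeasureTheory Set
open scoped ENNReal

namespace Pool.Agent.N286.LSP

open Pool.Agent.TH280.LS Pool.Agent.N563.LSP Pool.Agent.TH986.SUM
open Pool.Agent.TH312.ONE (be be_pos syk_be SyK)

/-- the multiplier -/
noncomputable def NN (σ a : ℝ) (j : ℕ) (ξ : ℝ) : ℂ :=
  ((Ps j (ra a ξ) * be (ra a ξ) ^ (-(σ / 2)) : ℝ) : ℂ)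

theorem continuous_NN (σ a : ℝ) (j : ℕ) : Continuous (NN σ a j) := by
  unfold NN
  refine Complex.continuous_ofReal.comp ?_
  exact ((continuous_Ps j).comp (continuous_ra a)).mul
    ((Pool.Agent.TH312.ONE.continuous_be.comp (continuous_ra a)).rpow_const
      fun ξ => Or.inl (be_pos _).ne')

/-- the bounds -/
theorem NN_bounds (σ : ℝ) (hσ : 0 < σ) : ∃ A : ℝ, 0 < A ∧ ∀ (a : ℝ) (j : ℕ),
    (∀ ξ, ‖NN σ a j ξ‖ ≤ A * (5 * ((2 : ℝ) ^ j / 2) ^ (-σ))) ∧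
    (∀ ξ ξ', ‖NN σ a j ξ - NN σ a j ξ'‖ ≤
      A * (5 * ((2 : ℝ) ^ j / 2) ^ (-σ)) / 2 ^ j * |ξ - ξ'|) ∧
    ∀ ξ, 2 * 2 ^ j < |ξ| → NN σ a j ξ = 0 := by
  obtain ⟨A, hA, hS⟩ := syk_be σ hσ
  refine ⟨A, hA, fun a j => ?_⟩
  have hsy : Sy σ (fun r => ((A⁻¹ * be r ^ (-(σ / 2)) : ℝ) : ℂ)) := by
    constructor
    · intro r hr
      rw [Complex.norm_real, Real.norm_eq_abs, abs_mul, abs_of_pos (inv_pos.2 hA),
        inv_mul_le_iff₀ hA]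
      exact hS.1 r hr
    · intro r r' hr hrr
      rw [← Complex.ofReal_sub, ← mul_sub, Complex.norm_real, Real.norm_eq_abs, abs_mul,
        abs_of_pos (inv_pos.2 hA), inv_mul_le_iff₀ hA]
      exact hS.2 r r' hr hrr
  have hK : (0 : ℝ) < 2 ^ j / 2 := by positivity
  have hB : 0 < 5 * ((2 : ℝ) ^ j / 2) ^ (-σ) := by
    have := Real.rpow_pos_of_pos hK (-σ)
    positivity
  have hcut := pc_cut hσ hsy a j
  set B := 5 * ((2 : ℝ) ^ j / 2) ^ (-σ) with hBd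
  set χ : ℝ → ℂ := fun ξ => (((B⁻¹ : ℝ) : ℂ)) * pc a (fun r => ((A⁻¹ * be r ^ (-(σ / 2)) : ℝ) : ℂ)) j ξ
    with hχ
  have hN : ∀ ξ, NN σ a j ξ = ((A * B : ℝ) : ℂ) * χ ξ := by
    intro ξ
    rw [hχ]
    simp only [NN, pc]
    rw [← Complex.ofReal_mul, ← Complex.ofReal_mul, ← Complex.ofReal_mul]
    congr 1
    field_simp
  obtain ⟨c1, c2, c3⟩ := hcut
  have hAB : 0 < A * B := mul_pos hA hB
  refine ⟨fun ξ => ?_, fun ξ ξ' => ?_, fun ξ hξ => ?_⟩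
  · rw [hN, norm_mul, Complex.norm_real, Real.norm_eq_abs, abs_of_pos hAB]
    calc A * B * ‖χ ξ‖ ≤ A * B * 1 := mul_le_mul_of_nonneg_left (c1 ξ) hAB.le
      _ = A * B := mul_one _
  · rw [hN, hN, ← mul_sub, norm_mul, Complex.norm_real, Real.norm_eq_abs, abs_of_pos hAB]
    calc A * B * ‖χ ξ - χ ξ'‖ ≤ A * B * (1 / 2 ^ j * |ξ - ξ'|) :=
          mul_le_mul_of_nonneg_left (c2 ξ ξ') hAB.le
      _ = A * B / 2 ^ j * |ξ - ξ'| := by ring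
  · rw [hN, c3 ξ hξ, mul_zero]

theorem be_mul (u v r : ℝ) : be r ^ u * be r ^ v = be r ^ (u + v) := (Real.rpow_add (be_pos r) u v).symm

theorem mc_eq (s s1 τ t r : ℝ) : mc s1 τ t r * be r ^ (-((s - s1) / 2)) = mc s τ t r := by
  have h := be_mul (-(s1 / 2)) (-((s - s1) / 2)) r
  have e : -(s1 / 2) + -((s - s1) / 2) = -(s / 2) := by ring
  rw [e] at h
  unfold be at h
  unfold mc be
  rw [← h]
  ring

theorem ms_eq (s s1 τ t r : ℝ) : ms s1 τ t r * be r ^ (-((s - s1) / 2)) = ms s τ t r := by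
  have h := be_mul ((1 - s1) / 2) (-((s - s1) / 2)) r
  have e : (1 - s1) / 2 + -((s - s1) / 2) = (1 - s) / 2 := by ring
  rw [e] at h
  unfold be at h
  unfold ms be
  rw [← h]
  ring

theorem Ux_eq (a σ : ℝ) (j : ℕ) (m1 m : ℝ → ℝ) (G G' : ℝ → ℂ)
    (hm : ∀ r, m1 r * be r ^ (-(σ / 2)) = m r)
    (hG' : ∀ ξ, ft G' ξ = NN σ a j ξ * ft G ξ) (x : ℝ) :
    Ux a (fun r => m r * Ps j r) G x = Ux a m1 G' x := by
  unfold Ux
  congr 1
  funext ξ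
  simp only [hG', ← hm]
  unfold NN
  push_cast
  ring

theorem l4b_ (h0 : Pool.Agent.TH280.LS.S_ONE) (h1 : S_KER) (h2 : S_CONV) : S_L4B := by
  intro s s1 hs1 hs
  have hσ : 0 < s - s1 := by linarith
  obtain ⟨A, hA, hN⟩ := NN_bounds (s - s1) hσ
  obtain ⟨C1, hC1, hone⟩ := h0 s1 hs1
  obtain ⟨C0, hC0, hker⟩ := h1
  refine ⟨C1 * (C0 ^ 4 * 4 * A ^ 4 * 625 * (2 : ℝ) ^ (4 * (s - s1))), by positivity, ?_⟩
  intro a τ j G ha hτ hτ1 hG
  obtain ⟨n1, n2, n3⟩ := hN a j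
  have hK : (0 : ℝ) < 2 ^ j / 2 := by positivity
  have hKσ := Real.rpow_pos_of_pos hK (-(s - s1))
  set B : ℝ := A * (5 * ((2 : ℝ) ^ j / 2) ^ (-(s - s1))) with hB
  have hB0 : 0 < B := by positivity
  have hint : Integrable (NN (s - s1) a j) := by
    refine (continuous_NN _ a j).integrable_of_hasCompactSupport
      (HasCompactSupport.intro (isCompact_Icc (a := -(2 * 2 ^ j)) (b := 2 * 2 ^ j)) fun x hx => ?_)
    refine n3 x ?_
    by_contra hc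
    push Not at hc
    exact hx (abs_le.1 hc)
  have hk := hker (2 * 2 ^ j) B (B / 2 ^ j) (NN (s - s1) a j) (by positivity) hB0 (by positivity)
    n1 n2 n3
  obtain ⟨-, G', hG'i, hG', hG'4⟩ := h2 (NN (s - s1) a j) _ (continuous_NN _ a j) hint
    (by positivity) hk G hG
  have hfin : ∀ X : ℝ≥0∞, X ≤ ENNReal.ofReal C1 * ∫⁻ x : ℝ, ‖G' x‖ₑ ^ 4 →
      X ≤ ENNReal.ofReal (C1 * (C0 ^ 4 * 4 * A ^ 4 * 625 * (2 : ℝ) ^ (4 * (s - s1))) *
        ((2 : ℝ) ^ j) ^ (-(4 * (s - s1)))) * ∫⁻ x : ℝ, ‖G x‖ₑ ^ 4 := by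
    intro X hX
    refine hX.trans ?_
    have e1 : (C0 * Real.sqrt (2 * 2 ^ j * B * (B / 2 ^ j))) ^ 4 = C0 ^ 4 * 4 * B ^ 4 := by
      have e2 : (2 * 2 ^ j * B * (B / 2 ^ j) : ℝ) = 2 * B ^ 2 := by field_simp
      rw [e2, mul_pow]
      have e3 : Real.sqrt (2 * B ^ 2) ^ 4 = (2 * B ^ 2) ^ 2 := by
        calc Real.sqrt (2 * B ^ 2) ^ 4 = (Real.sqrt (2 * B ^ 2) ^ 2) ^ 2 := by ring
          _ = (2 * B ^ 2) ^ 2 := by rw [Real.sq_sqrt (by positivity)]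
      rw [e3]
      ring
    have e4 : (((2 : ℝ) ^ j / 2) ^ (-(s - s1))) ^ 4 =
        (2 : ℝ) ^ (4 * (s - s1)) * ((2 : ℝ) ^ j) ^ (-(4 * (s - s1))) := by
      rw [← Real.rpow_natCast, ← Real.rpow_mul hK.le, Real.div_rpow (by positivity) (by norm_num),
        div_eq_mul_inv, ← Real.rpow_neg (by norm_num), mul_comm]
      congr 2 <;> push_cast <;> ring
    have e5 : C1 * (C0 * Real.sqrt (2 * 2 ^ j * B * (B / 2 ^ j))) ^ 4 =
        C1 * (C0 ^ 4 * 4 * A ^ 4 * 625 * (2 : ℝ) ^ (4 * (s - s1))) *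
          ((2 : ℝ) ^ j) ^ (-(4 * (s - s1))) := by
      rw [e1, hB, mul_pow, mul_pow, e4]
      ring
    rw [← e5, ENNReal.ofReal_mul hC1.le, mul_assoc]
    exact mul_le_mul_right hG'4 _
  obtain ⟨o1, o2⟩ := hone a τ G' ha hτ hτ1 hG'i
  constructor
  · refine hfin _ (le_trans (le_of_eq ?_) o1)
    refine lintegral_congr fun t => lintegral_congr fun x => ?_
    rw [Ux_eq a (s - s1) j (mc s1 τ t) (mc s τ t) G G' (fun r => mc_eq s s1 τ t r) hG' x]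
  · refine hfin _ (le_trans (le_of_eq ?_) o2)
    refine lintegral_congr fun t => lintegral_congr fun x => ?_
    rw [Ux_eq a (s - s1) j (ms s1 τ t) (ms s τ t) G G' (fun r => ms_eq s s1 τ t r) hG' x]

end Pool.Agent.N286.LSP
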